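import Pool.Agent.Y942.NC.Gap

/-!
# MP_cbd396_lc: the multicut exceeds the coding rate by a factor `√(log k / log log k)` for every
# number `k` of pairs

For every `k ≥ 2 ^ 24` there is a finite acyclic multiple-unicast network with exactly `k` pairs
in which the minimum multicut is more than `(1/36) √(log k / log log k)` times the network coding
rate. So Q2 is false, with an unbounded gap, and every function `β` as in Q1 satisfies
`β(k) ≥ (1/36) √(log k / log log k)`.
-/

set_option autoImplicit false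

open scoped ENNReal

namespace Pool.Agent.Results.MP_cbd396_lc.GapInNumberOfPairs



open Pool.Agent.Y942.NC

theorem card_chain_le {L q n : ℕ} :
    Fintype.card (Chain L q n) ≤ (L * q ^ (L * L)) * (L * q) ^ n := by
  classical
  let F : Chain L q n → Node L q × (Fin n → Fin L × Fin q) := fun p =>
    (p.1 0, fun i => ((p.1 i.succ).1, (p.1 i.succ).2 ((p.1 i.castSucc).1, (p.1 i.succ).1)))
  have hF : Function.Injective F := by
    intro p p' h
    have h0 : p.1 0 = p'.1 0 := congrArg Prod.fst h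
    have h1 : ∀ i, (F p).2 i = (F p').2 i := fun i => congrFun (congrArg Prod.snd h) i
    apply Subtype.ext
    funext i
    induction i using Fin.induction with
    | zero => exact h0
    | succ i ih =>
      have h2 : ((p.1 i.succ).1, (p.1 i.succ).2 ((p.1 i.castSucc).1, (p.1 i.succ).1)) =
        ((p'.1 i.succ).1, (p'.1 i.succ).2 ((p'.1 i.castSucc).1, (p'.1 i.succ).1)) := h1 i
      obtain ⟨hl, hv⟩ := Prod.mk.inj h2
      refine Prod.ext hl (funext fun e => ?_)
      by_cases he : e = ((p.1 i.castSucc).1, (p.1 i.succ).1)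
      · rw [he, hv, ih, hl]
      · have a1 := (p.2 i).2.1 e he
        have a2 := (p'.2 i).2.1 e (by rw [← ih, ← hl]; exact he)
        rw [a1, a2, ih]
  have := Fintype.card_le_of_injective F hF
  simpa only [Fintype.card_prod, Fintype.card_fun, Fintype.card_fin] using this

theorem card_Om_pos {L q : ℕ} (hq : 0 < q) : 0 < Fintype.card (Om L q) := by
  rw [Fintype.card_fun, Fintype.card_fin]
  positivity

theorem chain_nonempty {L q n : ℕ} (hL : L = 2 * (n + 1)) (hq : q = L ^ 3 * (n + 1)) :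
    Nonempty (Chain L q n) := by
  classical
  by_contra hcon
  have hL0 : 0 < L := by omega
  have hq0 : 0 < q := by rw [hq]; positivity
  have h1 := X_bound (n := n) (Finset.univ : Finset (Node L q)) hq hL0
    (fun p => absurd ⟨p⟩ hcon)
  have h2 := card_Om_pos (L := L) hq0
  rw [Finset.card_univ, Fintype.card_prod, Fintype.card_fin] at h1
  have h3 := Nat.le_of_mul_le_mul_right h1 h2
  omega

/-- A bound on the number of chains. -/
@[irreducible] def B (n : ℕ) : ℕ := (2 * n + 2) ^ (20 * (n + 1) ^ 2)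

theorem B_eq (n : ℕ) : B n = (2 * n + 2) ^ (20 * (n + 1) ^ 2) := by unfold B; rfl

theorem B_zero : B 0 = 2 ^ 20 := by rw [B_eq]; norm_num

theorem lt_B (k : ℕ) : k < B k := by
  rw [B_eq]
  have h1 : k < 2 ^ k := Nat.lt_two_pow_self
  have h2 : 2 ^ k ≤ (2 * k + 2) ^ k := Nat.pow_le_pow_left (by omega) _
  have h3 : (2 * k + 2) ^ k ≤ (2 * k + 2) ^ (20 * (k + 1) ^ 2) :=
    Nat.pow_le_pow_right (by omega) (by nlinarith)
  exact lt_of_lt_of_le h1 (h2.trans h3)

theorem log_gen (n E D : ℕ) (h5 : (E : ℝ) ≤ 80 * ((n : ℝ) + 1) ^ 2)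
    (h3 : (D : ℝ) ≤ 4 * ((n : ℝ) + 1)) (h1 : (1 : ℝ) ≤ D) :
    Real.log ((D ^ E : ℕ) : ℝ) ≤ 80 * ((n : ℝ) + 1) ^ 2 * Real.log (4 * ((n : ℝ) + 1)) := by
  rw [Nat.cast_pow, Real.log_pow]
  exact mul_le_mul h5 (Real.log_le_log (by linarith) h3) (Real.log_nonneg h1) (by positivity)

theorem log_B (n : ℕ) :
    Real.log (B (n + 1) : ℝ) ≤ 80 * ((n : ℝ) + 1) ^ 2 * Real.log (4 * ((n : ℝ) + 1)) := by
  have hn0 : (0 : ℝ) ≤ n := Nat.cast_nonneg n
  have a1 : ((20 * (n + 1 + 1) ^ 2 : ℕ) : ℝ) ≤ 80 * ((n : ℝ) + 1) ^ 2 := by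
    push_cast; nlinarith
  have a2 : ((2 * (n + 1) + 2 : ℕ) : ℝ) ≤ 4 * ((n : ℝ) + 1) := by
    push_cast; linarith
  have a3 : (1 : ℝ) ≤ ((2 * (n + 1) + 2 : ℕ) : ℝ) := by
    push_cast; linarith
  rw [B_eq]
  exact log_gen n _ _ a1 a2 a3

theorem exists_net (n k : ℕ) (hk : B n ≤ k) :
    ∃ N : Network, N.Acyclic ∧ (∀ i, N.s i ≠ N.t i) ∧ Nat.card N.I = k ∧
      ∃ T : ℕ, 0 < T ∧ N.R ≤ ((2 * T : ℕ) : ℝ≥0∞) ∧ (n + 1) * T ≤ N.MC := by
  classical
  obtain ⟨L, hL⟩ : ∃ L, L = 2 * (n + 1) := ⟨_, rfl⟩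
  obtain ⟨q, hq⟩ : ∃ q, q = L ^ 3 * (n + 1) := ⟨_, rfl⟩
  have hL0 : 0 < L := by omega
  have hq0 : 0 < q := by rw [hq]; positivity
  have hqL : q ≤ L ^ 4 := by
    rw [hq, pow_succ L 3]
    exact Nat.mul_le_mul_left _ (by omega)
  have hcard : Fintype.card (Chain L q n) ≤ k := by
    refine card_chain_le.trans (le_trans ?_ hk)
    calc (L * q ^ (L * L)) * (L * q) ^ n
        ≤ (L * (L ^ 4) ^ (L * L)) * (L * L ^ 4) ^ n :=
          Nat.mul_le_mul (Nat.mul_le_mul_left _ (Nat.pow_le_pow_left hqL _))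
            (Nat.pow_le_pow_left (Nat.mul_le_mul_left _ hqL) _)
      _ = L ^ (1 + 4 * (L * L) + 5 * n) := by
          have e1 : L * L ^ 4 = L ^ 5 := (pow_succ' L 4).symm
          have e2 : L * (L ^ 4) ^ (L * L) = L ^ (4 * (L * L) + 1) := by
            rw [← pow_mul, ← pow_succ']
          rw [e1, e2, ← pow_mul, ← pow_add]
          congr 1
          omega
      _ ≤ L ^ (20 * (n + 1) ^ 2) := by
          apply Nat.pow_le_pow_right hL0
          rw [hL]
          nlinarith
      _ = B n := by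
          have e : 2 * (n + 1) = 2 * n + 2 := by ring
          rw [B_eq, hL, e]
  have hne := chain_nonempty hL hq
  obtain ⟨g⟩ : Nonempty (Chain L q n ↪ Fin k) :=
    Function.Embedding.nonempty_of_card_le (by rw [Fintype.card_fin]; exact hcard)
  have hf : Function.Surjective (Function.invFun g) := Function.invFun_surjective g.injective
  refine ⟨net (Function.invFun g), net_acyclic, ?_, ?_, Fintype.card (Om L q), card_Om_pos hq0,
    R_bound hL, ?_⟩
  · intro p h
    have : (((Function.invFun g p).1 0, false) : Node L q × Bool)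
        = (((Function.invFun g p).1 (Fin.last n), true)) := h
    exact absurd (congrArg Prod.snd this) (by simp)
  · change Nat.card (Fin k) = k
    rw [Nat.card_eq_fintype_card, Fintype.card_fin]
  · have h1 := MC_bound hf hq hL0
    have h2 : L * Fintype.card (Om L q) = 2 * (n + 1) * Fintype.card (Om L q) := by
      rw [← hL]
    have h3 : 2 * (n + 1) * Fintype.card (Om L q) =
        (n + 1) * Fintype.card (Om L q) + (n + 1) * Fintype.card (Om L q) := by ring
    rw [h2, h3] at h1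
    exact Nat.le_of_add_le_add_right h1

theorem bound_real {n k : ℕ} (hk : (2 : ℝ) ^ 24 ≤ k) (h : k < B (n + 1)) :
    Real.sqrt (Real.log k / Real.log (Real.log k)) ≤ 9 * ((n : ℝ) + 1) := by
  have hk0 : (0 : ℝ) < k := lt_of_lt_of_le (by positivity) hk
  have hup : Real.log (k : ℝ) ≤ 80 * ((n : ℝ) + 1) ^ 2 * Real.log (4 * ((n : ℝ) + 1)) := by
    refine le_trans (Real.log_le_log hk0 ?_) (log_B n)
    exact_mod_cast h.le
  have hy16 : 16 ≤ Real.log (k : ℝ) := by
    have h1 : Real.log ((2 : ℝ) ^ 24) ≤ Real.log (k : ℝ) := Real.log_le_log (by positivity) hk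
    rw [Real.log_pow] at h1
    have := Real.log_two_gt_d9
    push_cast at h1
    linarith
  generalize Real.log (k : ℝ) = y at *
  have hm1 : 1 ≤ (n : ℝ) + 1 := by
    have : (0 : ℝ) ≤ n := Nat.cast_nonneg n
    linarith
  generalize (n : ℝ) + 1 = m at *
  have hly : 1 ≤ Real.log y := by
    rw [Real.le_log_iff_exp_le (by linarith)]
    have := Real.exp_one_lt_d9
    linarith
  have hmain : y ≤ 80 * m ^ 2 * Real.log y := by
    rcases le_or_gt y (m ^ 2) with hc | hc
    · nlinarith [sq_nonneg m, mul_nonneg (sq_nonneg m) (by linarith : (0:ℝ) ≤ Real.log y - 1)]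
    · refine hup.trans (mul_le_mul_of_nonneg_left ?_ (by positivity))
      apply Real.log_le_log (by positivity)
      -- 4 m ≤ y
      by_contra hcon
      push Not at hcon
      nlinarith
  have h9 : (0 : ℝ) ≤ 9 * m := by linarith
  rw [← Real.sqrt_sq h9]
  apply Real.sqrt_le_sqrt
  rw [div_le_iff₀ (by linarith)]
  nlinarith [mul_nonneg (sq_nonneg m) (by linarith : (0:ℝ) ≤ Real.log y)]

/-- For every `k ≥ 2 ^ 24` there is an acyclic network with exactly `k` source-sink pairs in which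
the minimum multicut is more than `(1 / 36) √(log k / log log k)` times the network coding rate. -/
theorem result (k : ℕ) (hk : 2 ^ 24 ≤ k) :
    ∃ N : Network, N.Acyclic ∧ (∀ i, N.s i ≠ N.t i) ∧ Nat.card N.I = k ∧
      ENNReal.ofReal (1 / 36 * Real.sqrt (Real.log k / Real.log (Real.log k))) * N.R <
        (N.MC : ℝ≥0∞) := by
  classical
  have hex : ∃ n : ℕ, k < B n := ⟨k, lt_B k⟩
  obtain ⟨n, h1, h2⟩ : ∃ n, k < B (n + 1) ∧ B n ≤ k := by
    obtain ⟨n1, hn1⟩ : ∃ n1, n1 = Nat.find hex := ⟨_, rfl⟩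
    have h1 : k < B n1 := hn1 ▸ Nat.find_spec hex
    have hpos : 0 < n1 := by
      by_contra hcon
      have : n1 = 0 := by omega
      rw [this, B_zero] at h1
      have h4 : (2 : ℕ) ^ 20 ≤ 2 ^ 24 := Nat.pow_le_pow_right (by norm_num) (by norm_num)
      exact absurd h1 (not_lt.2 (h4.trans hk))
    refine ⟨n1 - 1, ?_, ?_⟩
    · have e : n1 - 1 + 1 = n1 := by omega
      rw [e]; exact h1
    · have := Nat.find_min hex (show n1 - 1 < Nat.find hex by omega)
      omega
  have h3 := bound_real (n := n) (k := k) (by exact_mod_cast hk) h1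
  obtain ⟨N, hA, hst, hc, T, hT, hR, hM⟩ := exists_net n k h2
  refine ⟨N, hA, hst, hc, ?_⟩
  have hT' : (0 : ℝ) < T := by exact_mod_cast hT
  have hn0 : (0 : ℝ) ≤ n := Nat.cast_nonneg n
  calc ENNReal.ofReal (1 / 36 * Real.sqrt (Real.log k / Real.log (Real.log k))) * N.R
      ≤ ENNReal.ofReal (((n : ℝ) + 1) / 4) * ENNReal.ofReal (2 * T) := by
        apply mul_le_mul' (ENNReal.ofReal_le_ofReal (by linarith))
        refine hR.trans (le_of_eq ?_)
        rw [← ENNReal.ofReal_natCast]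
        push_cast
        rfl
    _ = ENNReal.ofReal (((n : ℝ) + 1) / 4 * (2 * T)) := (ENNReal.ofReal_mul (by positivity)).symm
    _ < ENNReal.ofReal (((n : ℝ) + 1) * T) := by
        rw [ENNReal.ofReal_lt_ofReal_iff (by positivity)]
        nlinarith
    _ = (((n + 1) * T : ℕ) : ℝ≥0∞) := by
        rw [← ENNReal.ofReal_natCast]
        push_cast
        rfl
    _ ≤ (N.MC : ℝ≥0∞) := by exact_mod_cast hM

end Pool.Agent.Results.MP_cbd396_lc.GapInNumberOfPairs
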